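import Pool.Agent.H28.BX.Glue

set_option autoImplicit false

/-! Case F: gadgets, local plans, the output. -/

namespace Pool.H28BX

open Finset Pool.H90BX
open scoped Classical

variable {V : Type} [Fintype V] [DecidableEq V] {r : ℕ} {l : LS V} {psi : Fin r → Fin r}
  {part : V → Lb → Fin r} {val : Fin r → ℤ} {s : ℝ} {U E : Finset V} {K : Finset (Fin r)}

/-- the conclusion of case F -/
def Out (l : LS V) (psi : Fin r → Fin r) (part : V → Lb → Fin r) (s : ℝ) : Prop :=
  ∃ (BadV : Finset V) (CS : Conf V) (kap : V × Bool → Fin r), Sol l psi part BadV CS kap ∧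
      (BadV.card : ℝ) ≤ 2000 * s * nn V

theorem card_bound (h : FC l psi part val s U K) (hE : EC l psi part val s U E) {X : Finset V}
    (hX : X.card ≤ 4) {B n : ℕ} (hB : (B : ℝ) ≤ 18 * s * nn V + 21)
    (hn : n ≤ (E ∪ X).card + (B + X.card) + 1) : (n : ℝ) ≤ 2000 * s * nn V := by
  have h1 : n ≤ E.card + B + 9 := by
    have := card_union_le E X
    omega
  have h2 : (n : ℝ) ≤ E.card + B + 9 := by exact_mod_cast h1
  have h3 := hE.card
  have h4 := h.large
  nlinarith

theorem out_of_plan (h : FC l psi part val s U K) (hE : EC l psi part val s U E) {X : Finset V}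
    (hX : X.card ≤ 4) {B : ℕ} (hB : (B : ℝ) ≤ 18 * s * nn V + 21) {mate : V → V}
    {t0 t1 : V → Lb × Fin r} (hp : Plan l psi part (E ∪ X) mate t0 t1)
    (hc : (univ.filter (fun v => mate v ≠ v)).card ≤ B + X.card)
    (hb : Bal psi (∑ v, ct mate t0 t1 v)) : Out l psi part s := by
  obtain ⟨BadV, CS, kap, h1, h2⟩ := build h.bdd (typ' h hE X) hp hb
  exact ⟨BadV, CS, kap, h1, card_bound h hE hX hB (by omega)⟩

theorem out_of_hub (h : FC l psi part val s U K) (hE : EC l psi part val s U E) {X : Finset V}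
    (hX : X.card ≤ 4) {B : ℕ} (hB : (B : ℝ) ≤ 18 * s * nn V + 21) {mate : V → V}
    {t0 t1 : V → Lb × Fin r} (hp : Plan l psi part (E ∪ X) mate t0 t1)
    (hc : (univ.filter (fun v => mate v ≠ v)).card ≤ B + X.card) (w v : V)
    (hw : mate w ≠ w) (hv : mate v = v) (hlab : l w v ≠ l w (mate w)) (hlab2 : (t0 v).1 ≠ l v w)
    (hb : Bal psi (∑ v, ct mate t0 t1 v - ev (t0 w).2 - ev (t1 v).2)) : Out l psi part s := by
  obtain ⟨BadV, CS, kap, h1, h2⟩ := build_hub h.bdd (typ' h hE X) hp w v hw hv hlab hlab2 hb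
  exact ⟨BadV, CS, kap, h1, card_bound h hE hX hB (by omega)⟩

/-- a gadget: the edge v w with label different from the labels of two acting tokens at v -/
structure Gad (l : LS V) (psi : Fin r → Fin r) (part : V → Lb → Fin r) (v w : V) (x y : Fin r)
    (p q : Lb) : Prop where
  ne : v ≠ w
  ap : Act l psi part v p x
  aq : Act l psi part v q y
  pq : p ≠ q
  pl : p ≠ l v w
  ql : q ≠ l v w

theorem Gad.swap {v w : V} {x y : Fin r} {p q : Lb} (h : Gad l psi part v w x y p q) :
    Gad l psi part v w y x q p := ⟨h.ne, h.aq, h.ap, h.pq.symm, h.ql, h.pl⟩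

theorem tp_cases {v : V} {x y : Fin r} (hxy : x ≠ y) (h : tp l part v = {x, y}) :
    (lam l part v (mx l v) = x ∧ lam l part v (md l v) = y) ∨
    (lam l part v (mx l v) = y ∧ lam l part v (md l v) = x) := by
  unfold tp at h
  have h1 : lam l part v (mx l v) ∈ ({x, y} : Finset (Fin r)) := by rw [← h]; simp
  have h2 : x ∈ ({lam l part v (mx l v), lam l part v (md l v)} : Finset (Fin r)) := by
    rw [h]; simp
  have h3 : y ∈ ({lam l part v (mx l v), lam l part v (md l v)} : Finset (Fin r)) := by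
    rw [h]; simp
  simp only [mem_insert, mem_singleton] at h1 h2 h3
  rcases h1 with h1 | h1
  · rcases h3 with h3 | h3
    · exact absurd (h1.symm.trans h3.symm) hxy
    · exact Or.inl ⟨h1, h3.symm⟩
  · rcases h2 with h2 | h2
    · exact absurd (h2.trans h1) hxy
    · exact Or.inr ⟨h1, h2.symm⟩

theorem exists_gad (h : FC l psi part val s U K) (hE : EC l psi part val s U E) {v w : V}
    (hv : v ∉ E) (hw : w ≠ v) (hlw : l v w = mn l v) {x y : Fin r}
    (ht : (lam l part v (mx l v) = x ∧ lam l part v (md l v) = y) ∨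
      (lam l part v (mx l v) = y ∧ lam l part v (md l v) = x)) :
    ∃ p q, Gad l psi part v w x y p q := by
  obtain ⟨h1, h2, -⟩ := typ h hE v hv
  have g : ∀ {x' y' : Fin r}, lam l part v (mx l v) = x' → lam l part v (md l v) = y' →
      Gad l psi part v w x' y' (mx l v) (md l v) := by
    intro x' y' e1 e2
    refine ⟨hw.symm, e1 ▸ h1, e2 ▸ h2, mx_ne_md l v, ?_, ?_⟩
    · rw [hlw]; exact mx_ne_mn l v
    · rw [hlw]; exact md_ne_mn l v
  rcases ht with ⟨e1, e2⟩ | ⟨e1, e2⟩
  · exact ⟨_, _, g e1 e2⟩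
  · exact ⟨_, _, (g e1 e2).swap⟩

/-- local plan: a w joined, Y free -/
theorem plan1 (h : FC l psi part val s U K) (hE : EC l psi part val s U E) {a w : V}
    {X Y : Finset V} (hX : X = insert a (insert w Y)) (haw : a ≠ w) (haY : a ∉ Y) (hwY : w ∉ Y)
    {B : ℕ} {o : Fin r → ℤ} (ho : Achv l psi part E X B o)
    {p : Lb} {x : Fin r} (hp : Act l psi part a p x) (hpl : p ≠ l a w)
    {c : Lb × Fin r} (hc : Act l psi part w c.1 c.2) (hcl : c.1 ≠ l w a)
    (m : V → (Lb × Fin r) × (Lb × Fin r))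
    (hm : ∀ y ∈ Y, Act l psi part y (m y).1.1 (m y).1.2 ∧ Act l psi part y (m y).2.1 (m y).2.2 ∧
      (m y).1.1 ≠ (m y).2.1) :
    ∃ mate t0 t1, Plan l psi part (E ∪ X) mate t0 t1 ∧ mate w = a ∧ t0 w = c ∧
      (∀ y ∈ Y, mate y = y ∧ t0 y = (m y).1 ∧ t1 y = (m y).2) ∧
      ∑ v, ct mate t0 t1 v = o + ev x + ev c.2 + ∑ y ∈ Y, (ev (m y).1.2 + ev (m y).2.2) ∧
      (univ.filter (fun v => mate v ≠ v)).card ≤ B + X.card := by
  let mX : V → V := fun v => if v = a then w else if v = w then a else v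
  let u0 : V → Lb × Fin r := fun v => if v = a then (p, x) else if v = w then c else (m v).1
  let u1 : V → Lb × Fin r := fun v => (m v).2
  have ma : mX a = w := if_pos rfl
  have mw : mX w = a := by simp [mX, haw.symm]
  have my : ∀ y ∈ Y, mX y = y := by
    intro y hy
    have h1 : y ≠ a := fun e => haY (e ▸ hy)
    have h2 : y ≠ w := fun e => hwY (e ▸ hy)
    simp [mX, h1, h2]
  have ua : u0 a = (p, x) := if_pos rfl
  have uw : u0 w = c := by simp [u0, haw.symm]
  have uy : ∀ y ∈ Y, u0 y = (m y).1 := by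
    intro y hy
    have h1 : y ≠ a := fun e => haY (e ▸ hy)
    have h2 : y ≠ w := fun e => hwY (e ▸ hy)
    simp [u0, h1, h2]
  have hXm : ∀ v, v ∈ X ↔ v = a ∨ v = w ∨ v ∈ Y := by
    intro v; rw [hX, mem_insert, mem_insert]
  obtain ⟨mate, t0, t1, h1, h2, h3, h4⟩ := glue h hE ho mX u0 u1
    (by
      intro v hv
      rcases (hXm v).1 hv with rfl | rfl | hv
      · rw [ma, mw]
      · rw [mw, ma]
      · rw [my v hv, my v hv])
    (by
      intro v hv
      rcases (hXm v).1 hv with rfl | rfl | hv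
      · rw [ma]; exact (hXm _).2 (Or.inr (Or.inl rfl))
      · rw [mw]; exact (hXm _).2 (Or.inl rfl)
      · rw [my v hv]; exact (hXm _).2 (Or.inr (Or.inr hv)))
    (by
      intro v hv
      rcases (hXm v).1 hv with rfl | rfl | hv
      · rw [ua]; exact hp
      · rw [uw]; exact hc
      · rw [uy v hv]; exact (hm v hv).1)
    (by
      intro v hv hv2
      rcases (hXm v).1 hv with rfl | rfl | hv
      · rw [ma] at hv2; exact absurd hv2.symm haw
      · rw [mw] at hv2; exact absurd hv2 haw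
      · exact (hm v hv).2.1)
    (by
      intro v hv hv2
      rcases (hXm v).1 hv with rfl | rfl | hv
      · rw [ma] at hv2; exact absurd hv2.symm haw
      · rw [mw] at hv2; exact absurd hv2 haw
      · rw [uy v hv]; exact (hm v hv).2.2)
    (by
      intro v hv hv2
      rcases (hXm v).1 hv with rfl | rfl | hv
      · rw [ua, ma]; exact hpl
      · rw [uw, mw]; exact hcl
      · exact absurd (my v hv) hv2)
  refine ⟨mate, t0, t1, h1, ?_, ?_, ?_, ?_, h4⟩
  · rw [(h2 w ((hXm _).2 (Or.inr (Or.inl rfl)))).1, mw]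
  · rw [(h2 w ((hXm _).2 (Or.inr (Or.inl rfl)))).2.1, uw]
  · intro y hy
    obtain ⟨e1, e2, e3⟩ := h2 y ((hXm _).2 (Or.inr (Or.inr hy)))
    rw [e1, e2, e3, my y hy, uy y hy]
    exact ⟨rfl, rfl, rfl⟩
  · rw [h3, hX, sum_insert (by rw [mem_insert, not_or]; exact ⟨haw, haY⟩), sum_insert hwY]
    have e1 : ct mX u0 u1 a = ev x := by
      unfold ct; rw [ma, if_neg haw.symm, ua]
    have e2 : ct mX u0 u1 w = ev c.2 := by
      unfold ct; rw [mw, if_neg haw, uw]
    have e3 : ∑ y ∈ Y, ct mX u0 u1 y = ∑ y ∈ Y, (ev (m y).1.2 + ev (m y).2.2) :=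
      sum_congr rfl fun y hy => by unfold ct; rw [if_pos (my y hy), uy y hy]
    rw [e1, e2, e3]
    abel

/-- local plan: a wa and b wb joined -/
theorem plan2 (h : FC l psi part val s U K) (hE : EC l psi part val s U E) {a wa b wb : V}
    {X : Finset V} (hX : X = {a, wa, b, wb}) (h1 : a ≠ wa) (h2 : a ≠ b) (h3 : a ≠ wb)
    (h4 : wa ≠ b) (h5 : wa ≠ wb) (h6 : b ≠ wb)
    {B : ℕ} {o : Fin r → ℤ} (ho : Achv l psi part E X B o)
    {p q : Lb} {x y : Fin r} (hp : Act l psi part a p x) (hpl : p ≠ l a wa)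
    (hq : Act l psi part b q y) (hql : q ≠ l b wb)
    {c d : Lb × Fin r} (hc : Act l psi part wa c.1 c.2) (hcl : c.1 ≠ l wa a)
    (hd : Act l psi part wb d.1 d.2) (hdl : d.1 ≠ l wb b) :
    ∃ mate t0 t1, Plan l psi part (E ∪ X) mate t0 t1 ∧
      ∑ v, ct mate t0 t1 v = o + ev c.2 + ev d.2 + ev x + ev y ∧
      (univ.filter (fun v => mate v ≠ v)).card ≤ B + X.card := by
  let mX : V → V := fun v => if v = a then wa else if v = wa then a else
    if v = b then wb else if v = wb then b else v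
  let u0 : V → Lb × Fin r := fun v => if v = a then (p, x) else if v = wa then c else
    if v = b then (q, y) else d
  have m1 : mX a = wa := if_pos rfl
  have m2 : mX wa = a := by simp [mX, h1.symm]
  have m3 : mX b = wb := by simp [mX, h2.symm, h4.symm]
  have m4 : mX wb = b := by simp [mX, h3.symm, h5.symm, h6.symm]
  have u1 : u0 a = (p, x) := if_pos rfl
  have u2 : u0 wa = c := by simp [u0, h1.symm]
  have u3 : u0 b = (q, y) := by simp [u0, h2.symm, h4.symm]
  have u4 : u0 wb = d := by simp [u0, h3.symm, h5.symm, h6.symm]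
  have hXm : ∀ v, v ∈ X ↔ v = a ∨ v = wa ∨ v = b ∨ v = wb := by
    intro v; rw [hX]; simp
  have hno : ∀ v ∈ X, mX v ≠ v := by
    intro v hv
    rcases (hXm v).1 hv with rfl | rfl | rfl | rfl
    · rw [m1]; exact h1.symm
    · rw [m2]; exact h1
    · rw [m3]; exact h6.symm
    · rw [m4]; exact h6
  obtain ⟨mate, t0, t1, g1, g2, g3, g4⟩ := glue h hE ho mX u0 u0
    (by
      intro v hv
      rcases (hXm v).1 hv with rfl | rfl | rfl | rfl
      · rw [m1, m2]
      · rw [m2, m1]
      · rw [m3, m4]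
      · rw [m4, m3])
    (by
      intro v hv
      rcases (hXm v).1 hv with rfl | rfl | rfl | rfl
      · rw [m1, hXm]; tauto
      · rw [m2, hXm]; tauto
      · rw [m3, hXm]; tauto
      · rw [m4, hXm]; tauto)
    (by
      intro v hv
      rcases (hXm v).1 hv with rfl | rfl | rfl | rfl
      · rw [u1]; exact hp
      · rw [u2]; exact hc
      · rw [u3]; exact hq
      · rw [u4]; exact hd)
    (fun v hv hv2 => absurd hv2 (hno v hv))
    (fun v hv hv2 => absurd hv2 (hno v hv))
    (by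
      intro v hv _
      rcases (hXm v).1 hv with rfl | rfl | rfl | rfl
      · rw [u1, m1]; exact hpl
      · rw [u2, m2]; exact hcl
      · rw [u3, m3]; exact hql
      · rw [u4, m4]; exact hdl)
  refine ⟨mate, t0, t1, g1, ?_, g4⟩
  rw [g3, hX, sum_insert (by simp only [mem_insert, mem_singleton]; tauto),
    sum_insert (by simp only [mem_insert, mem_singleton]; tauto),
    sum_insert (by simp only [mem_singleton]; tauto), sum_singleton]
  have e1 : ct mX u0 u0 a = ev x := by
    unfold ct; rw [m1, if_neg h1.symm, u1]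
  have e2 : ct mX u0 u0 wa = ev c.2 := by
    unfold ct; rw [m2, if_neg h1, u2]
  have e3 : ct mX u0 u0 b = ev y := by
    unfold ct; rw [m3, if_neg h6.symm, u3]
  have e4 : ct mX u0 u0 wb = ev d.2 := by
    unfold ct; rw [m4, if_neg h6, u4]
  rw [e1, e2, e3, e4]
  abel

end Pool.H28BX
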