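import Pool.Agent.H90.BX.CB
import Pool.Agent.H90.BX.SB

set_option autoImplicit false

/-! Case F of the large n Bollobas-Erdos theorem: gluing of stages and local plans, linear algebra
of token counts, the path lemma. -/

namespace Pool.H28BX

open Finset Pool.H90BX
open scoped Classical

variable {V : Type} [Fintype V] [DecidableEq V] {r : ℕ} {l : LS V} {psi : Fin r → Fin r}
  {part : V → Lb → Fin r} {val : Fin r → ℤ} {s : ℝ} {U E : Finset V} {K : Finset (Fin r)}

/-! ### token counts -/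

theorem ev_apply (A B : Fin r) : ev A B = if B = A then 1 else 0 := by
  unfold ev; rw [Pi.single_apply]

theorem ev_self (A : Fin r) : ev A A = 1 := by rw [ev_apply, if_pos rfl]

theorem ev_ne {A B : Fin r} (h : B ≠ A) : ev A B = 0 := by rw [ev_apply, if_neg h]

theorem sum_ev (A : Fin r) : ∑ B, ev A B = 1 := by
  simp only [ev_apply, sum_ite_eq', mem_univ, if_true]

theorem valF_sum {h : Fin r} (T : Fin r → ℤ) (hh : psi h ≠ h) :
    ∑ A, valF psi h A * T A = T h - T (psi h) := by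
  have h1 : ∀ A, valF psi h A * T A = (if A = h then T A else 0) -
      (if A = psi h then T A else 0) := by
    intro A
    unfold valF
    by_cases h1 : A = h
    · subst h1
      rw [if_pos rfl, if_pos rfl, if_neg (Ne.symm hh)]; ring
    · rw [if_neg h1, if_neg h1]
      by_cases h2 : A = psi h
      · rw [if_pos h2, if_pos h2]; ring
      · rw [if_neg h2, if_neg h2]; ring
  rw [sum_congr rfl fun A _ => h1 A, sum_sub_distrib, sum_ite_eq', sum_ite_eq', if_pos (mem_univ _),
    if_pos (mem_univ _)]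

/-- supported on K with an even number of tokens -/
def Inv (K : Finset (Fin r)) (T : Fin r → ℤ) : Prop :=
  (∀ A, A ∉ K → T A = 0) ∧ (∑ A, T A) % 2 = 0

theorem inv_sum {T : Fin r → ℤ} (h : Inv K T) : (∑ A ∈ K, T A) % 2 = 0 := by
  rw [← h.2, sum_subset (subset_univ K) fun A _ hA => h.1 A hA]

theorem Inv.add {T T' : Fin r → ℤ} (h : Inv K T) (h' : Inv K T') : Inv K (T + T') := by
  refine ⟨fun A hA => ?_, ?_⟩
  · rw [Pi.add_apply, h.1 A hA, h'.1 A hA]; rfl
  · have : ∑ A, (T + T') A = ∑ A, T A + ∑ A, T' A := by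
      rw [← sum_add_distrib]; exact sum_congr rfl fun A _ => rfl
    rw [this]
    have h1 := h.2
    have h2 := h'.2
    omega

theorem inv_two {A B : Fin r} (hA : A ∈ K) (hB : B ∈ K) : Inv K (ev A + ev B) := by
  refine ⟨fun C hC => ?_, ?_⟩
  · rw [Pi.add_apply, ev_ne, ev_ne]; · rfl
    · rintro rfl; exact hC hB
    · rintro rfl; exact hC hA
  · have : ∑ C, (ev A + ev B) C = ∑ C, ev A C + ∑ C, ev B C := by
      rw [← sum_add_distrib]; exact sum_congr rfl fun A _ => rfl
    rw [this, sum_ev, sum_ev]; rfl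

theorem inv_sub {A B : Fin r} (hA : A ∈ K) (hB : B ∈ K) : Inv K (ev B - ev A) := by
  refine ⟨fun C hC => ?_, ?_⟩
  · rw [Pi.sub_apply, ev_ne, ev_ne]; · rfl
    · rintro rfl; exact hC hA
    · rintro rfl; exact hC hB
  · have : ∑ C, (ev B - ev A) C = ∑ C, ev B C - ∑ C, ev A C := by
      rw [← sum_sub_distrib]; exact sum_congr rfl fun A _ => rfl
    rw [this, sum_ev, sum_ev]; rfl

/-- balanced vectors -/
theorem bal_of {h : Fin r} (hinv : ∀ A, psi (psi A) = A) (hh : psi h ≠ h)
    (hK : ∀ A ∈ K, psi A ∈ K) {T : Fin r → ℤ} (hT : ∀ A, A ∉ K → T A = 0)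
    (hw : T h = T (psi h))
    (hc : ∀ A ∈ K, A = h ∨ A = psi h ∨ (psi A = A ∧ T A % 2 = 0)) : Bal psi T := by
  intro A
  by_cases hA : A ∈ K
  · rcases hc A hA with h1 | h1 | h1
    · subst h1
      exact ⟨hw, fun h2 => absurd h2 hh⟩
    · subst h1
      rw [hinv]
      exact ⟨hw.symm, fun h2 => absurd h2.symm hh⟩
    · rw [h1.1]
      exact ⟨rfl, fun _ => Int.even_iff.2 h1.2⟩
  · have h2 : psi A ∉ K := fun h3 => hA (by rw [← hinv A]; exact hK _ h3)
    rw [hT A hA, hT _ h2]
    exact ⟨rfl, fun _ => by simp⟩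

/-! ### stages -/

theorem even_matched {mate : V → V} (hm : ∀ v, mate (mate v) = v) :
    ((univ.filter (fun v : V => mate v ≠ v)).card : ℤ) % 2 = 0 := by
  have h1 : ∑ v ∈ univ.filter (fun v : V => mate v ≠ v), (1 : ZMod 2) = 0 := by
    refine Finset.sum_involution (fun v _ => mate v) (fun v _ => by decide) ?_ ?_ ?_
    · intro v hv _
      exact (mem_filter.1 hv).2
    · intro v hv
      rw [mem_filter]
      refine ⟨mem_univ _, ?_⟩
      rw [hm]
      exact (mem_filter.1 hv).2.symm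
    · intro v _
      exact hm v
  rw [sum_const, nsmul_eq_mul, mul_one] at h1
  have h2 := (ZMod.natCast_eq_zero_iff _ 2).1 h1
  omega

theorem achv_inv {K : Finset (Fin r)} (hK : ∀ u, ∀ t ∈ Tab l psi part E u, t.2 ∈ K)
    {X : Finset V} {B : ℕ} {o : Fin r → ℤ} (ho : Achv l psi part E X B o) : Inv K o := by
  obtain ⟨mate, t0, t1, hS, rfl⟩ := ho
  have hsum : ∀ v, ∑ A, ct mate t0 t1 v A = 2 - (if mate v ≠ v then (1 : ℤ) else 0) := by
    intro v
    unfold ct
    by_cases hv : mate v = v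
    · rw [if_pos hv, if_neg (by simpa using hv)]
      have : ∑ C, (ev (t0 v).2 + ev (t1 v).2) C = ∑ C, ev (t0 v).2 C + ∑ C, ev (t1 v).2 C := by
        rw [← sum_add_distrib]; exact sum_congr rfl fun A _ => rfl
      rw [this, sum_ev, sum_ev]; rfl
    · rw [if_neg hv, if_pos hv, sum_ev]; rfl
  refine ⟨fun A hA => ?_, ?_⟩
  · rw [Finset.sum_apply]
    refine sum_eq_zero fun v _ => ?_
    unfold ct
    have h0 : ev (t0 v).2 A = 0 := ev_ne fun h1 => hA (h1 ▸ hK v _ (hS.tok0 v))
    by_cases hv : mate v = v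
    · have h1 : ev (t1 v).2 A = 0 := ev_ne fun h1 => hA (h1 ▸ hK v _ (hS.tok1 v hv))
      rw [if_pos hv, Pi.add_apply, h0, h1]; rfl
    · rw [if_neg hv, h0]
  · have h1 : ∑ A, (∑ v ∈ Xᶜ, ct mate t0 t1 v) A = ∑ v ∈ Xᶜ, ∑ A, ct mate t0 t1 v A := by
      rw [sum_comm]
      exact sum_congr rfl fun A _ => Finset.sum_apply _ _ _
    rw [h1, sum_congr rfl fun v _ => hsum v, sum_sub_distrib, sum_const, ← Finset.sum_filter,
      sum_const]
    have h2 : (Xᶜ).filter (fun v => mate v ≠ v) = univ.filter (fun v => mate v ≠ v) := by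
      ext v
      rw [mem_filter, mem_filter, mem_compl]
      refine ⟨fun h => ⟨mem_univ _, h.2⟩, fun h => ⟨fun hv => h.2 (hS.fix v hv), h.2⟩⟩
    rw [h2]
    have h3 := even_matched hS.inv
    simp only [nsmul_eq_mul, mul_one]
    omega

/-- GLUING: a stage outside X and a local plan on X -/
theorem glue (h : FC l psi part val s U K) (hE : EC l psi part val s U E) {X : Finset V} {B : ℕ}
    {o : Fin r → ℤ} (ho : Achv l psi part E X B o) (mX : V → V) (u0 u1 : V → Lb × Fin r)
    (hinv : ∀ v ∈ X, mX (mX v) = v) (hmem : ∀ v ∈ X, mX v ∈ X)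
    (ha0 : ∀ v ∈ X, Act l psi part v (u0 v).1 (u0 v).2)
    (ha1 : ∀ v ∈ X, mX v = v → Act l psi part v (u1 v).1 (u1 v).2)
    (hne : ∀ v ∈ X, mX v = v → (u0 v).1 ≠ (u1 v).1)
    (huse : ∀ v ∈ X, mX v ≠ v → (u0 v).1 ≠ l v (mX v)) :
    ∃ mate t0 t1, Plan l psi part (E ∪ X) mate t0 t1 ∧
      (∀ v ∈ X, mate v = mX v ∧ t0 v = u0 v ∧ t1 v = u1 v) ∧
      ∑ v, ct mate t0 t1 v = o + ∑ v ∈ X, ct mX u0 u1 v ∧
      (univ.filter (fun v => mate v ≠ v)).card ≤ B + X.card := by
  obtain ⟨mate, t0, t1, hS, rfl⟩ := ho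
  let m' : V → V := fun v => if v ∈ X then mX v else mate v
  let t0' : V → Lb × Fin r := fun v => if v ∈ X then u0 v else
    if v ∉ E ∧ mate v = v then (mx l v, lam l part v (mx l v)) else t0 v
  let t1' : V → Lb × Fin r := fun v => if v ∈ X then u1 v else
    if v ∉ E ∧ mate v = v then (md l v, lam l part v (md l v)) else t1 v
  have mi : ∀ v, v ∈ X → m' v = mX v := fun v hv => if_pos hv
  have mo : ∀ v, v ∉ X → m' v = mate v := fun v hv => if_neg hv
  have t0i : ∀ v, v ∈ X → t0' v = u0 v := fun v hv => if_pos hv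
  have t1i : ∀ v, v ∈ X → t1' v = u1 v := fun v hv => if_pos hv
  have t0o : ∀ v, v ∉ X → ¬ (v ∉ E ∧ mate v = v) → t0' v = t0 v := fun v hv h1 => by
    simp only [t0', if_neg hv, if_neg h1]
  have t1o : ∀ v, v ∉ X → ¬ (v ∉ E ∧ mate v = v) → t1' v = t1 v := fun v hv h1 => by
    simp only [t1', if_neg hv, if_neg h1]
  have t0e : ∀ v, v ∉ X → (v ∉ E ∧ mate v = v) → t0' v = (mx l v, lam l part v (mx l v)) :=
    fun v hv h1 => by simp only [t0', if_neg hv, if_pos h1]
  have t1e : ∀ v, v ∉ X → (v ∉ E ∧ mate v = v) → t1' v = (md l v, lam l part v (md l v)) :=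
    fun v hv h1 => by simp only [t1', if_neg hv, if_pos h1]
  have hmo : ∀ v, v ∉ X → mate v ∉ X := by
    intro v hv h1
    apply hv
    have h2 := hS.fix _ h1
    rw [hS.inv] at h2
    rw [h2]; exact h1
  refine ⟨m', t0', t1', ⟨?_, ?_, ?_, ?_, ?_, ?_⟩, ?_, ?_, ?_⟩
  · intro v
    by_cases hv : v ∈ X
    · rw [mi v hv, mi _ (hmem v hv), hinv v hv]
    · rw [mo v hv, mo _ (hmo v hv), hS.inv]
  · intro v
    by_cases hv : v ∈ X
    · rw [t0i v hv]; exact ha0 v hv
    · by_cases h1 : v ∉ E ∧ mate v = v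
      · rw [t0e v hv h1]; exact (typ h hE v h1.1).1
      · rw [t0o v hv h1]; exact tab_act h hE v _ (hS.tok0 v)
  · intro v hm
    by_cases hv : v ∈ X
    · rw [mi v hv] at hm
      rw [t1i v hv]; exact ha1 v hv hm
    · rw [mo v hv] at hm
      by_cases h1 : v ∉ E ∧ mate v = v
      · rw [t1e v hv h1]; exact (typ h hE v h1.1).2.1
      · rw [t1o v hv h1]; exact tab_act h hE v _ (hS.tok1 v hm)
  · intro v hm
    by_cases hv : v ∈ X
    · rw [mi v hv] at hm
      rw [t0i v hv, t1i v hv]; exact hne v hv hm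
    · rw [mo v hv] at hm
      by_cases h1 : v ∉ E ∧ mate v = v
      · rw [t0e v hv h1, t1e v hv h1]; exact mx_ne_md l v
      · rw [t0o v hv h1, t1o v hv h1]; exact hS.ne v hm
  · intro v hm
    by_cases hv : v ∈ X
    · rw [mi v hv] at hm ⊢
      rw [t0i v hv]; exact huse v hv hm
    · rw [mo v hv] at hm ⊢
      rw [t0o v hv fun h1 => hm h1.2]
      exact hS.use v hm
  · intro v hv hm
    rw [mem_union, not_or] at hv
    rw [mo v hv.2] at hm
    exact ⟨t0e v hv.2 ⟨hv.1, hm⟩, t1e v hv.2 ⟨hv.1, hm⟩⟩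
  · intro v hv
    exact ⟨mi v hv, t0i v hv, t1i v hv⟩
  · rw [← Finset.sum_add_sum_compl X, add_comm]
    congr 1
    · refine sum_congr rfl fun v hv => ?_
      rw [mem_compl] at hv
      unfold ct
      rw [mo v hv]
      by_cases hm : mate v = v
      · rw [if_pos hm, if_pos hm]
        by_cases h1 : v ∉ E ∧ mate v = v
        · rw [t0e v hv h1, t1e v hv h1]
          have e0 := hS.tok0 v
          have e1 := hS.tok1 v hm
          have e2 := hS.ne v hm
          unfold Tab at e0 e1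
          rw [if_neg h1.1, mem_insert, mem_singleton] at e0 e1
          rcases e0 with e0 | e0 <;> rcases e1 with e1 | e1 <;> rw [e0, e1] at e2 ⊢
          · exact absurd rfl e2
          · rw [add_comm]
          · exact absurd rfl e2
        · rw [t0o v hv h1, t1o v hv h1]
      · rw [if_neg hm, if_neg hm, t0o v hv fun h1 => hm h1.2]
    · refine sum_congr rfl fun v hv => ?_
      unfold ct
      rw [mi v hv, t0i v hv, t1i v hv]
  · have hsub : univ.filter (fun v => m' v ≠ v) ⊆ univ.filter (fun v => mate v ≠ v) ∪ X := by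
      intro v hv
      rw [mem_filter] at hv
      rw [mem_union, mem_filter]
      by_cases h1 : v ∈ X
      · exact Or.inr h1
      · rw [mo v h1] at hv
        exact Or.inl ⟨mem_univ _, hv.2⟩
    exact (card_le_card hsub).trans ((card_union_le _ _).trans (Nat.add_le_add_right hS.few _))

/-- vertices outside E ∪ X are typical -/
theorem typ' (h : FC l psi part val s U K) (hE : EC l psi part val s U E) (X : Finset V) :
    ∀ v, v ∉ E ∪ X → Typ l psi part v := fun v hv =>
  typ h hE v fun h1 => hv (mem_union_left _ h1)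

/-! ### elementary steps and paths -/

/-- value of a total -/
def Wv (val : Fin r → ℤ) (o : Fin r → ℤ) : ℤ := ∑ A, val A * o A

theorem Wv_ev (val : Fin r → ℤ) (A : Fin r) : Wv val (ev A) = val A := by
  unfold Wv
  rw [Finset.sum_eq_single A, ev_self, mul_one]
  · intro b _ hb
    rw [ev_ne hb, mul_zero]
  · intro h
    exact absurd (mem_univ _) h

theorem Wv_add (val : Fin r → ℤ) (o o' : Fin r → ℤ) :
    Wv val (o + o') = Wv val o + Wv val o' := by
  unfold Wv
  rw [← sum_add_distrib]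
  exact sum_congr rfl fun A _ => by rw [Pi.add_apply]; ring

theorem Wv_sub (val : Fin r → ℤ) (o o' : Fin r → ℤ) :
    Wv val (o - o') = Wv val o - Wv val o' := by
  unfold Wv
  rw [← sum_sub_distrib]
  exact sum_congr rfl fun A _ => by rw [Pi.sub_apply]; ring

theorem el_value {o o' : Fin r → ℤ} (hv : Vl psi val) (h : El K val o o') :
    Wv val o ≤ Wv val o' ∧ Wv val o' ≤ Wv val o + 2 := by
  rcases h with ⟨x, -, y, -, h1, rfl⟩ | ⟨x, -, y, -, h1, rfl⟩ | ⟨x, -, y, -, h1, rfl⟩
  all_goals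
    simp only [Wv_add, Wv_sub, Wv_ev]
    have a1 := hv.lo x
    have a2 := hv.lo y
    have a3 := hv.hi x
    have a4 := hv.hi y
    constructor <;> omega

theorem el_add {o o' k : Fin r → ℤ} (h : El K val o o') : El K val (o + k) (o' + k) := by
  rcases h with ⟨x, hx, y, hy, h1, rfl⟩ | ⟨x, hx, y, hy, h1, rfl⟩ | ⟨x, hx, y, hy, h1, rfl⟩
  · exact Or.inl ⟨x, hx, y, hy, h1, by abel⟩
  · exact Or.inr (Or.inl ⟨x, hx, y, hy, h1, by abel⟩)
  · exact Or.inr (Or.inr ⟨x, hx, y, hy, h1, by abel⟩)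

/-- exchange of one token -/
theorem el_exch {o : Fin r → ℤ} {x y : Fin r} (hx : x ∈ K) (hy : y ∈ K) (h : val x ≤ val y) :
    El K val (o + ev x) (o + ev y) := Or.inr (Or.inr ⟨x, hx, y, hy, h, by abel⟩)

/-- paths along steps: a property which is kept until a hit -/
theorem path_hit {X : Finset V} {B : ℕ} {P H : (Fin r → ℤ) → Prop} {o1 o2 : Fin r → ℤ}
    (hp : Relation.ReflTransGen (Step l psi part val K E X B) o1 o2) (h1 : P o1)
    (hstep : ∀ o o', Step l psi part val K E X B o o' → P o → P o' ∨ H o ∨ H o') :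
    (∃ o, Achv l psi part E X B o ∧ H o) ∨ P o2 := by
  induction hp with
  | refl => exact Or.inr h1
  | tail _ hs ih =>
    rcases ih with ih | ih
    · exact Or.inl ih
    · rcases hstep _ _ hs ih with h2 | h2 | h2
      · exact Or.inr h2
      · exact Or.inl ⟨_, hs.1, h2⟩
      · exact Or.inl ⟨_, hs.2.1, h2⟩

theorem achv_end {X : Finset V} {B : ℕ} {o1 o2 : Fin r → ℤ} (ho : Achv l psi part E X B o1)
    (hp : Relation.ReflTransGen (Step l psi part val K E X B) o1 o2) :
    Achv l psi part E X B o2 := by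
  rcases Relation.ReflTransGen.cases_tail hp with h | ⟨c, -, h⟩
  · rw [h]; exact ho
  · exact h.2.1

/-! ### modes and picks -/

/-- entry of the mode with a label different from j -/
def pick (j : Lb) (t : (Lb × Fin r) × (Lb × Fin r)) : Lb × Fin r := if t.1.1 ≠ j then t.1 else t.2

/-- the other entry -/
def rest (j : Lb) (t : (Lb × Fin r) × (Lb × Fin r)) : Lb × Fin r := if t.1.1 ≠ j then t.2 else t.1

theorem pick_rest {val' : Fin r → ℤ} {T : Finset (Lb × Fin r)} {t : (Lb × Fin r) × (Lb × Fin r)}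
    (ht : IsMax val' T t) (j : Lb) : pick j t ∈ T ∧ rest j t ∈ T ∧ (pick j t).1 ≠ j ∧
      (pick j t).1 ≠ (rest j t).1 ∧ (∀ v : Fin r → ℤ, mval v t = v (pick j t).2 + v (rest j t).2) ∧
      ∀ x ∈ T, x.1 ≠ j → val' x.2 ≤ val' (pick j t).2 := by
  unfold pick rest
  by_cases h : t.1.1 ≠ j
  · rw [if_pos h, if_pos h]
    exact ⟨ht.m1, ht.m2, h, ht.ne, fun v => rfl, fun x hx _ => ht.top x hx⟩
  · rw [if_neg h, if_neg h]
    rw [ne_eq, not_not] at h
    refine ⟨ht.m2, ht.m1, ?_, ht.ne.symm, fun v => add_comm _ _, fun x hx hj => ?_⟩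
    · rw [← h]; exact ht.ne.symm
    · exact ht.snd x hx (by rw [h]; exact hj)

theorem mval_std {val' : Fin r → ℤ} {v : V} (hv : v ∉ E) {t : (Lb × Fin r) × (Lb × Fin r)}
    (ht : IsMax val' (Tab l psi part E v) t) (w : Fin r → ℤ) :
    mval w t = w (lam l part v (mx l v)) + w (lam l part v (md l v)) := by
  have e0 := ht.m1
  have e1 := ht.m2
  have e2 := ht.ne
  unfold Tab at e0 e1
  rw [if_neg hv, mem_insert, mem_singleton] at e0 e1
  unfold mval
  rcases e0 with e0 | e0 <;> rcases e1 with e1 | e1 <;> rw [e0, e1] at e2 ⊢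
  · exact absurd rfl e2
  · rw [add_comm]
  · exact absurd rfl e2

/-- every vertex has a partner in its class of label mn -/
theorem exists_mn (hl : Bdd l) (v : V) : ∃ w, w ≠ v ∧ l v w = mn l v := by
  have h1 : 1 ≤ cnt l v (mn l v) := by
    rcases hl.2 v with h | h
    · exact T3_mn_pos h
    · have h2 := h (mn l v)
      have h3 := hl.1
      omega
  obtain ⟨w, hw⟩ := card_pos.1 h1
  exact ⟨w, (mem_cls.1 hw).1, (mem_cls.1 hw).2⟩

end Pool.H28BX
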