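import Pool.Agent.H28.BX.Two

set_option autoImplicit false

/-! Case F: the subcase F1 (two self-dual classes). -/

namespace Pool.H28BX

open Finset Pool.H90BX
open scoped Classical

variable {V : Type} [Fintype V] [DecidableEq V] {r : ℕ} {l : LS V} {psi : Fin r → Fin r}
  {part : V → Lb → Fin r} {val : Fin r → ℤ} {s : ℝ} {U E : Finset V} {K : Finset (Fin r)}

/-- four classes: g, psi g of values 1, -1 (in some order), x, y self-dual -/
structure Four (psi : Fin r → Fin r) (K : Finset (Fin r)) (g x y : Fin r) : Prop where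
  inv : ∀ A, psi (psi A) = A
  ne : psi g ≠ g
  xy : x ≠ y
  px : psi x = x
  py : psi y = y
  eq : K = {g, psi g, x, y}

theorem Four.kpsi {g x y : Fin r} (h : Four psi K g x y) : ∀ A ∈ K, psi A ∈ K := by
  intro A hA
  rw [h.eq] at hA ⊢
  simp only [mem_insert, mem_singleton] at hA ⊢
  rcases hA with rfl | rfl | rfl | rfl
  · tauto
  · left; exact h.inv _
  · right; right; left; exact h.px
  · right; right; right; exact h.py

theorem Four.xg {g x y : Fin r} (h : Four psi K g x y) : x ≠ g := by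
  intro e; have := h.px; rw [e] at this; exact h.ne this

theorem Four.xpg {g x y : Fin r} (h : Four psi K g x y) : x ≠ psi g := by
  intro e; have := h.px; rw [e, h.inv] at this; exact h.ne this.symm

theorem Four.swap {g x y : Fin r} (h : Four psi K g x y) : Four psi K g y x :=
  ⟨h.inv, h.ne, h.xy.symm, h.py, h.px, by
    rw [h.eq]; ext A; simp only [mem_insert, mem_singleton]; tauto⟩

theorem Four.dual {g x y : Fin r} (h : Four psi K g x y) : Four psi K (psi g) x y :=
  ⟨h.inv, by rw [h.inv]; exact h.ne.symm, h.xy, h.px, h.py, by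
    rw [h.eq, h.inv]; ext A; simp only [mem_insert, mem_singleton]; tauto⟩

theorem Four.par {g x y : Fin r} (h : Four psi K g x y) {T : Fin r → ℤ} (hT : Inv K T) :
    (T g + T (psi g) + T x + T y) % 2 = 0 := by
  have h1 := inv_sum hT
  rw [h.eq, sum_insert (by simp [h.ne.symm, h.xg.symm, h.swap.xg.symm]),
    sum_insert (by simp [h.xpg.symm, h.swap.xpg.symm]), sum_insert (by simp [h.xy]),
    sum_singleton] at h1
  omega

theorem Four.bal {g x y : Fin r} (h : Four psi K g x y) {T : Fin r → ℤ} (hT : Inv K T)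
    (hw : T g = T (psi g)) (hx : T x % 2 = 0) (hy : T y % 2 = 0) : Bal psi T := by
  refine bal_of h.inv h.ne h.kpsi hT.1 hw ?_
  intro A hA
  rw [h.eq] at hA
  simp only [mem_insert, mem_singleton] at hA
  rcases hA with rfl | rfl | rfl | rfl
  · exact Or.inl rfl
  · exact Or.inr (Or.inl rfl)
  · exact Or.inr (Or.inr ⟨h.px, hx⟩)
  · exact Or.inr (Or.inr ⟨h.py, hy⟩)

/-- the vector of the end lemma -/
theorem end_bal {g x y : Fin r} (h : Four psi K g x y) {u : Fin r → ℤ} (hu : Inv K u)
    (hw : u g - u (psi g) = -1) (hy : u y % 2 = 1) :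
    Bal psi (u + ev (psi g) + ev g + ev g + ev y) := by
  have hg : g ∈ K := by rw [h.eq]; simp
  have hpg : psi g ∈ K := by rw [h.eq]; simp
  have hyK : y ∈ K := by rw [h.eq]; simp
  have hI : Inv K (u + ev (psi g) + ev g + ev g + ev y) := by
    have h1 := (hu.add (inv_two hpg hg)).add (inv_two hg hyK)
    have h2 : u + (ev (psi g) + ev g) + (ev g + ev y) =
      u + ev (psi g) + ev g + ev g + ev y := by abel
    rwa [h2] at h1
  have hp := h.par hu
  have e1 := h.ne
  have e2 := h.ne.symm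
  have e3 := h.xy
  have e4 := h.xg
  have e5 := h.xpg
  have e6 := h.swap.xg
  have e7 := h.swap.xpg
  refine h.bal hI ?_ ?_ ?_
  · simp only [Pi.add_apply, ev_apply, e1, e2, e6.symm, e7.symm, if_true, if_false]
    omega
  · simp only [Pi.add_apply, ev_apply, e3, e4, e5, if_false]
    omega
  · simp only [Pi.add_apply, ev_apply, e6, e7, if_true, if_false]
    omega

/-- good vectors -/
def Good (h x y : Fin r) (ph : Fin r) (u : Fin r → ℤ) : Prop :=
  u h - u ph = 0 ∨ (u h - u ph = 1 ∧ u x % 2 = 1) ∨ (u h - u ph = -1 ∧ u y % 2 = 1)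

theorem good_choice {g x y : Fin r} (h : Four psi K g x y) {u : Fin r → ℤ} (hu : Inv K u)
    (hG : Good g x y (psi g) u) : ∃ a b, (a = x ∨ a = g) ∧ (b = y ∨ b = psi g) ∧
      Bal psi (u + ev a + ev b) := by
  have hgK : g ∈ K := by rw [h.eq]; simp
  have hpg : psi g ∈ K := by rw [h.eq]; simp
  have hxK : x ∈ K := by rw [h.eq]; simp
  have hyK : y ∈ K := by rw [h.eq]; simp
  have hI : ∀ {a b}, a ∈ K → b ∈ K → Inv K (u + ev a + ev b) := by
    intro a b ha hb
    rw [add_assoc]; exact hu.add (inv_two ha hb)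
  have hp := h.par hu
  have e1 := h.ne
  have e2 := h.ne.symm
  have e3 := h.xy
  have e3' := h.xy.symm
  have e4 := h.xg
  have e5 := h.xpg
  have e6 := h.swap.xg
  have e7 := h.swap.xpg
  rcases hG with hw | ⟨hw, hx⟩ | ⟨hw, hy⟩
  · by_cases hx : u x % 2 = 1
    · refine ⟨x, y, Or.inl rfl, Or.inl rfl, h.bal (hI hxK hyK) ?_ ?_ ?_⟩ <;>
      simp only [Pi.add_apply, ev_apply, e3, e3', e4.symm, e5.symm, e6.symm, e7.symm,
        if_true, if_false] <;> omega
    · refine ⟨g, psi g, Or.inr rfl, Or.inr rfl, h.bal (hI hgK hpg) ?_ ?_ ?_⟩ <;>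
      simp only [Pi.add_apply, ev_apply, e1, e2, e4, e5, e6, e7,
        if_true, if_false] <;> omega
  · refine ⟨x, psi g, Or.inl rfl, Or.inr rfl, h.bal (hI hxK hpg) ?_ ?_ ?_⟩ <;>
      simp only [Pi.add_apply, ev_apply, e2, e3', e4.symm, e5.symm, e5, e7,
        if_true, if_false] <;> omega
  · refine ⟨g, y, Or.inr rfl, Or.inl rfl, h.bal (hI hgK hyK) ?_ ?_ ?_⟩ <;>
      simp only [Pi.add_apply, ev_apply, e1, e3, e4, e6.symm, e6, e7.symm,
        if_true, if_false] <;> omega

/-- elementary steps from negative to nonnegative values hit a good vector -/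
theorem step_good {g x y : Fin r} (h : Four psi K g x y) (hval : val = valF psi g)
    {u u' : Fin r → ℤ} (hu : Inv K u) (hs : El K val u u') (hw : u g - u (psi g) ≤ -1) :
    u' g - u' (psi g) ≤ -1 ∨ Good g x y (psi g) u ∨ Good g x y (psi g) u' := by
  have hp := h.par hu
  have e1 := h.ne
  have e2 := h.ne.symm
  have e3 := h.xy
  have e3' := h.xy.symm
  have e4 := h.xg
  have e5 := h.xpg
  have e6 := h.swap.xg
  have e7 := h.swap.xpg
  have v1 : val g = 1 := by rw [hval]; exact valF_self g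
  have v2 : val (psi g) = -1 := by rw [hval]; exact valF_psi h.ne
  have v3 : val x = 0 := by rw [hval]; exact valF_ne e4 e5
  have v4 : val y = 0 := by rw [hval]; exact valF_ne e6 e7
  unfold Good
  rcases hs with ⟨a, ha, b, hb, h1, rfl⟩ | ⟨a, ha, b, hb, h1, rfl⟩ | ⟨a, ha, b, hb, h1, rfl⟩ <;>
  rw [h.eq] at ha hb <;>
  simp only [mem_insert, mem_singleton] at ha hb <;>
  rcases ha with rfl | rfl | rfl | rfl <;>
  rcases hb with rfl | rfl | rfl | rfl <;>
  simp only [v1, v2, v3, v4] at h1 <;>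
  first
  | (exfalso; omega)
  | (simp only [Pi.add_apply, Pi.sub_apply, ev_apply, e1, e2, e3, e3', e4, e5, e6, e7, e4.symm,
      e5.symm, e6.symm, e7.symm, if_true, if_false]
     omega)

end Pool.H28BX
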