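import Pool.Agent.H28.BX.One

set_option autoImplicit false

/-! Case F: the subcase F1 (two self-dual classes), disjoint gadgets and hub. -/

namespace Pool.H28BX

open Finset Pool.H90BX
open scoped Classical

variable {V : Type} [Fintype V] [DecidableEq V] {r : ℕ} {l : LS V} {psi : Fin r → Fin r}
  {part : V → Lb → Fin r} {val : Fin r → ℤ} {s : ℝ} {U E : Finset V} {K : Finset (Fin r)}

theorem Gad.single {v w : V} {x y : Fin r} {p q : Lb} (h : Gad l psi part v w x y p q)
    {z : Fin r} (hz : z = x ∨ z = y) : ∃ p', Act l psi part v p' z ∧ p' ≠ l v w := by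
  rcases hz with rfl | rfl
  · exact ⟨p, h.ap, h.pl⟩
  · exact ⟨q, h.aq, h.ql⟩

/-- end lemma, disjoint gadgets: only the gadget a wa is used; wb has a mode d, z with z of
class g -/
theorem end_disj (h : FC l psi part val s U K) (hE : EC l psi part val s U E) {g x y : Fin r}
    (h4 : Four psi K g x y) {a wa b wb : V} {pa qa pb qb : Lb}
    (ga : Gad l psi part a wa x (psi g) pa qa) (gb : Gad l psi part b wb y g pb qb)
    (h2 : a ≠ b) (h3 : a ≠ wb) (h5 : wa ≠ b) (h6 : wa ≠ wb)
    {X : Finset V} (hX : X = {a, wa, b, wb}) {B : ℕ} (hB : (B : ℝ) ≤ 18 * s * nn V + 21)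
    {o : Fin r → ℤ} (ho : Achv l psi part E X B o) {c d z : Lb × Fin r}
    (hc : c ∈ Tab l psi part E wa) (hcl : c.1 ≠ l wa a) (hd : d ∈ Tab l psi part E wb)
    (hz : z ∈ Tab l psi part E wb) (hdz : d.1 ≠ z.1) (hzg : z.2 = g)
    (hw : (o + ev c.2 + ev d.2) g - (o + ev c.2 + ev d.2) (psi g) = -1)
    (hy : (o + ev c.2 + ev d.2) y % 2 = 1) : Out l psi part s := by
  have hKt := fun u t ht => tab_K h hE u t ht
  have hI : Inv K (o + ev c.2 + ev d.2) := by
    rw [add_assoc]
    exact (achv_inv hKt ho).add (inv_two (hKt _ _ hc) (hKt _ _ hd))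
  let m : V → (Lb × Fin r) × (Lb × Fin r) := fun v => if v = b then ((pb, y), (qb, g)) else (d, z)
  have mb : m b = ((pb, y), (qb, g)) := if_pos rfl
  have mw : m wb = (d, z) := if_neg gb.ne.symm
  obtain ⟨mate, t0, t1, g1, -, -, -, g3, g4⟩ := plan1 h hE (X := X) (Y := {b, wb}) (by rw [hX])
    ga.ne (by simp [h2, h3]) (by simp [h5, h6]) ho ga.aq ga.ql (tab_act h hE wa c hc) hcl m
    (by
      intro v hv
      rw [mem_insert, mem_singleton] at hv
      rcases hv with rfl | rfl
      · rw [mb]; exact ⟨gb.ap, gb.aq, gb.pq⟩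
      · rw [mw]; exact ⟨tab_act h hE _ d hd, tab_act h hE _ z hz, hdz⟩)
  refine out_of_plan h hE ?_ hB g1 g4 ?_
  · rw [hX]; exact card_le_four
  · rw [g3, sum_pair gb.ne, mb, mw]
    dsimp only
    rw [hzg]
    have h7 := end_bal h4 hI hw hy
    have h8 : o + ev (psi g) + ev c.2 + (ev y + ev g + (ev d.2 + ev g)) =
      o + ev c.2 + ev d.2 + ev (psi g) + ev g + ev g + ev y := by abel
    rw [h8]; exact h7

/-- end lemma, hub: only the gadget a w is used, the token of w has class g -/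
theorem end_hub (h : FC l psi part val s U K) (hE : EC l psi part val s U E) {g x y : Fin r}
    (h4 : Four psi K g x y) {a w b : V} {pa qa pb qb : Lb}
    (ga : Gad l psi part a w x (psi g) pa qa) (gb : Gad l psi part b w y g pb qb)
    (h2 : a ≠ b) {X : Finset V} (hX : X = {a, w, b}) {B : ℕ} (hB : (B : ℝ) ≤ 18 * s * nn V + 21)
    {o : Fin r → ℤ} (ho : Achv l psi part E X B o) {c : Lb × Fin r}
    (hc : c ∈ Tab l psi part E w) (hcl : c.1 ≠ l w a) (hcg : c.2 = g)
    (hw : o g - o (psi g) = -1) (hy : o y % 2 = 1) : Out l psi part s := by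
  have hKt := fun u t ht => tab_K h hE u t ht
  have hI : Inv K o := achv_inv hKt ho
  let m : V → (Lb × Fin r) × (Lb × Fin r) := fun v => ((pb, y), (qb, g))
  obtain ⟨mate, t0, t1, g1, -, -, -, g3, g4⟩ := plan1 h hE (X := X) (Y := {b}) (by rw [hX])
    ga.ne (by simp [h2]) (by simp [gb.ne.symm]) ho ga.aq ga.ql (tab_act h hE w c hc) hcl m
    (by
      intro v hv
      rw [mem_singleton] at hv
      rw [hv]
      exact ⟨gb.ap, gb.aq, gb.pq⟩)
  refine out_of_plan h hE ?_ hB g1 g4 ?_
  · rw [hX]; exact card_le_three.trans (by norm_num)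
  · rw [g3, sum_singleton]
    dsimp only [m]
    rw [hcg]
    have h7 := end_bal h4 hI hw hy
    have h8 : o + ev (psi g) + ev g + (ev y + ev g) =
      o + ev (psi g) + ev g + ev g + ev y := by abel
    rw [h8]; exact h7

/-- both gadgets, disjoint -/
theorem both_disj (h : FC l psi part val s U K) (hE : EC l psi part val s U E) {g x y : Fin r}
    (h4 : Four psi K g x y) {a wa b wb : V} {pa qa pb qb : Lb}
    (ga : Gad l psi part a wa x g pa qa) (gb : Gad l psi part b wb y (psi g) pb qb)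
    (h2 : a ≠ b) (h3 : a ≠ wb) (h5 : wa ≠ b) (h6 : wa ≠ wb)
    {X : Finset V} (hX : X = {a, wa, b, wb}) {B : ℕ} (hB : (B : ℝ) ≤ 18 * s * nn V + 21)
    {o : Fin r → ℤ} (ho : Achv l psi part E X B o) {c d : Lb × Fin r}
    (hc : c ∈ Tab l psi part E wa) (hcl : c.1 ≠ l wa a) (hd : d ∈ Tab l psi part E wb)
    (hdl : d.1 ≠ l wb b) (hG : Good g x y (psi g) (o + ev c.2 + ev d.2)) :
    Out l psi part s := by
  have hKt := fun u t ht => tab_K h hE u t ht
  have hI : Inv K (o + ev c.2 + ev d.2) := by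
    rw [add_assoc]
    exact (achv_inv hKt ho).add (inv_two (hKt _ _ hc) (hKt _ _ hd))
  obtain ⟨a', b', ha', hb', hbal⟩ := good_choice h4 hI hG
  obtain ⟨p', hp', hpl'⟩ := ga.single ha'
  obtain ⟨q', hq', hql'⟩ := gb.single hb'
  obtain ⟨mate, t0, t1, g1, g3, g4⟩ := plan2 h hE hX ga.ne h2 h3 h5 h6 gb.ne ho hp' hpl' hq' hql'
    (tab_act h hE wa c hc) hcl (tab_act h hE wb d hd) hdl
  refine out_of_plan h hE ?_ hB g1 g4 (g3 ▸ hbal)
  rw [hX]; exact card_le_four

/-- both gadgets, hub -/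
theorem both_hub (h : FC l psi part val s U K) (hE : EC l psi part val s U E) {g x y : Fin r}
    (h4 : Four psi K g x y) {a w b : V} {pa qa pb qb : Lb}
    (ga : Gad l psi part a w x g pa qa) (gb : Gad l psi part b w y (psi g) pb qb)
    (h2 : a ≠ b) (hlab : l w a ≠ l w b)
    {X : Finset V} (hX : X = {a, w, b}) {B : ℕ} (hB : (B : ℝ) ≤ 18 * s * nn V + 21)
    {o : Fin r → ℤ} (ho : Achv l psi part E X B o) {c : Lb × Fin r}
    (hc : c ∈ Tab l psi part E w) (hcl : c.1 ≠ l w a) (hG : Good g x y (psi g) o) :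
    Out l psi part s := by
  have hKt := fun u t ht => tab_K h hE u t ht
  have hI : Inv K o := achv_inv hKt ho
  obtain ⟨a', b', ha', hb', hbal⟩ := good_choice h4 hI hG
  obtain ⟨p', hp', hpl'⟩ := ga.single ha'
  obtain ⟨m, hm1, hm2, hm3⟩ : ∃ m : (Lb × Fin r) × (Lb × Fin r), m.1.2 = b' ∧ m.1.1 ≠ l b w ∧
      (Act l psi part b m.1.1 m.1.2 ∧ Act l psi part b m.2.1 m.2.2 ∧ m.1.1 ≠ m.2.1) := by
    rcases hb' with rfl | rfl
    · exact ⟨((pb, _), (qb, _)), rfl, gb.pl, gb.ap, gb.aq, gb.pq⟩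
    · exact ⟨((qb, _), (pb, _)), rfl, gb.ql, gb.aq, gb.ap, gb.pq.symm⟩
  obtain ⟨mate, t0, t1, g1, e1, e2, e3, g3, g4⟩ := plan1 h hE (X := X) (Y := {b}) (by rw [hX])
    ga.ne (by simp [h2]) (by simp [gb.ne.symm]) ho hp' hpl' (tab_act h hE w c hc) hcl
    (fun _ => m)
    (by
      intro v hv
      rw [mem_singleton] at hv
      rw [hv]
      exact hm3)
  obtain ⟨f1, f2, f3⟩ := e3 b (mem_singleton_self b)
  refine out_of_hub h hE ?_ hB g1 g4 w b (by rw [e1]; exact ga.ne) f1 (by rw [e1]; exact hlab.symm)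
    (by rw [f2]; exact hm2) ?_
  · rw [hX]; exact card_le_three.trans (by norm_num)
  · rw [g3, sum_singleton, e2, f3]
    have h8 : o + ev a' + ev c.2 + (ev m.1.2 + ev m.2.2) - ev c.2 - ev m.2.2 =
      o + ev a' + ev b' := by rw [hm1]; abel
    rw [h8]; exact hbal

/-- a table entry at w with a label different from j -/
theorem exists_entry (h : FC l psi part val s U K) (hE : EC l psi part val s U E) (w : V) (j : Lb) :
    ∃ c ∈ Tab l psi part E w, c.1 ≠ j := by
  obtain ⟨⟨A, hA⟩, ⟨A', hA'⟩⟩ := tab_two h hE w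
  by_cases h1 : mx l w = j
  · exact ⟨_, hA', by rw [← h1]; exact (mx_ne_md l w).symm⟩
  · exact ⟨_, hA, h1⟩

theorem uniq_neg (hv : Vl psi val) {g A : Fin r} (hg : val g = 1) (hA : val A = -1) :
    A = psi g := by
  have h1 : val (psi A) = 1 := by rw [hv.anti, hA]; rfl
  have h2 := hv.uniq _ _ h1 hg
  rw [← h2, hv.inv]

/-- F1, disjoint gadgets -/
theorem case_disj (h : FC l psi part val s U K) (hE : EC l psi part val s U E) {g x y : Fin r}
    (h4 : Four psi K g x y) (hval : val = valF psi g) {a wa b wb : V} {pa qa pb qb : Lb}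
    (ga : Gad l psi part a wa x g pa qa) (gb : Gad l psi part b wb y (psi g) pb qb)
    (haE : a ∉ E) (hbE : b ∉ E)
    (hta : val (lam l part a (mx l a)) + val (lam l part a (md l a)) = 1)
    (htb : val (lam l part b (mx l b)) + val (lam l part b (md l b)) = -1)
    (h2 : a ≠ b) (h3 : a ≠ wb) (h5 : wa ≠ b) (h6 : wa ≠ wb) : Out l psi part s := by
  have hKt := fun u t ht => tab_K h hE u t ht
  have vg : val g = 1 := by rw [hval]; exact valF_self g
  choose M hM using fun u => exists_max h hE u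
  choose Mn hMn using fun u => exists_max h.neg hE.neg u
  obtain ⟨B, hB1, hB2⟩ := exists_B h
  set X : Finset V := {a, wa, b, wb} with hX
  have hXc : X.card ≤ 4 := by rw [hX]; exact card_le_four
  obtain ⟨o1, o2, ho1, hp, hv1, hv2⟩ := chain h hE M Mn hM hMn X hXc B hB1
  have ho2 := achv_end ho1 hp
  have hsum : ∀ f : V → ℤ, ∑ v ∈ X, f v = f a + f b + f wa + f wb := by
    intro f
    rw [hX, sum_insert (by simp [ga.ne, h2, h3]), sum_insert (by simp [h5, h6]),
      sum_pair gb.ne]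
    ring
  rw [hsum, mval_std haE (hMn a), mval_std hbE (hMn b), hta, htb] at hv1
  rw [hsum, mval_std haE (hM a), mval_std hbE (hM b), hta, htb] at hv2
  change Wv val o1 + _ ≤ -1 at hv1
  change 1 ≤ Wv val o2 + _ at hv2
  obtain ⟨a1, a2, a3, a4, a5, -⟩ := pick_rest (hMn wa) (l wa a)
  obtain ⟨b1, b2, b3, b4, b5, b6⟩ := pick_rest (hM wa) (l wa a)
  obtain ⟨c1, c2, c3, c4, c5, -⟩ := pick_rest (hMn wb) (l wb b)
  obtain ⟨d1, d2, d3, d4, d5, d6⟩ := pick_rest (hM wb) (l wb b)
  rw [a5, c5] at hv1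
  rw [b5, d5] at hv2
  set ea := pick (l wa a) (Mn wa)
  set ra := rest (l wa a) (Mn wa)
  set fa := pick (l wa a) (M wa)
  set sa := rest (l wa a) (M wa)
  set eb := pick (l wb b) (Mn wb)
  set rb := rest (l wb b) (Mn wb)
  set fb := pick (l wb b) (M wb)
  set sb := rest (l wb b) (M wb)
  have hea : val ea.2 ≤ val fa.2 := b6 ea a1 a3
  have heb : val eb.2 ≤ val fb.2 := d6 eb c1 c3
  have l1 := h.vl.lo ra.2
  have l2 := h.vl.lo rb.2
  have l3 := h.vl.hi sa.2
  have l4 := h.vl.hi sb.2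
  have hW : ∀ T : Fin r → ℤ, Wv val T = T g - T (psi g) := fun T => by
    rw [hval]; exact Wv_valF h4.ne T
  have fin : ∀ (o : Fin r → ℤ) (c d : Lb × Fin r), Achv l psi part E X B o →
      c ∈ Tab l psi part E wa → c.1 ≠ l wa a → d ∈ Tab l psi part E wb → d.1 ≠ l wb b →
      Good g x y (psi g) (o + ev c.2 + ev d.2) → Out l psi part s :=
    fun o c d ho hc hcl hd hdl hG =>
      both_disj h hE h4 ga gb h2 h3 h5 h6 hX hB2 ho hc hcl hd hdl hG
  have hI : ∀ {o : Fin r → ℤ} {c d : Lb × Fin r}, Achv l psi part E X B o →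
      c ∈ Tab l psi part E wa → d ∈ Tab l psi part E wb → Inv K (o + ev c.2 + ev d.2) := by
    intro o c d ho hc hd
    rw [add_assoc]
    exact (achv_inv hKt ho).add (inv_two (hKt _ _ hc) (hKt _ _ hd))
  by_cases hG1 : Good g x y (psi g) (o1 + ev ea.2 + ev eb.2)
  · exact fin o1 ea eb ho1 a1 a3 c1 c3 hG1
  have hv1' : Wv val (o1 + ev ea.2 + ev eb.2) + val ra.2 + val rb.2 ≤ -1 := by
    rw [Wv_add, Wv_add, Wv_ev, Wv_ev]; omega
  have hv2' : 1 ≤ Wv val (o2 + ev fa.2 + ev fb.2) + val sa.2 + val sb.2 := by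
    rw [Wv_add, Wv_add, Wv_ev, Wv_ev]; omega
  rw [hW] at hv1' hv2'
  have hp1 := h4.par (hI ho1 a1 c1)
  have hp2 := h4.par (hI ho2 b1 d1)
  by_cases hneg : (o1 + ev ea.2 + ev eb.2) g - (o1 + ev ea.2 + ev eb.2) (psi g) ≤ -1
  · rcases path_hit (P := fun o => (o + ev ea.2 + ev eb.2) g -
        (o + ev ea.2 + ev eb.2) (psi g) ≤ -1)
      (H := fun o => Good g x y (psi g) (o + ev ea.2 + ev eb.2)) hp hneg
      (fun o o' hs h1 => by
        have h7 := step_good h4 hval (hI hs.1 a1 c1)
          (el_add (k := ev eb.2) (el_add (k := ev ea.2) hs.2.2)) h1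
        exact h7) with ⟨o, ho, hG⟩ | hP2
    · exact fin o ea eb ho a1 a3 c1 c3 hG
    rcases step_good h4 hval (hI ho2 a1 c1)
      (el_add (k := ev eb.2) (el_exch (o := o2) (hKt _ _ a1) (hKt _ _ b1) hea)) hP2 with
      hP3 | hG | hG
    · have hs : El K val (o2 + ev fa.2 + ev eb.2) (o2 + ev fa.2 + ev fb.2) :=
        el_exch (hKt _ _ c1) (hKt _ _ d1) heb
      rcases step_good h4 hval (hI ho2 b1 c1) hs hP3 with hP4 | hG | hG
      · -- the last case
        by_cases hG2 : Good g x y (psi g) (o2 + ev fa.2 + ev fb.2)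
        · exact fin o2 fa fb ho2 b1 b3 d1 d3 hG2
        have hs1 : val sa.2 = 1 := by omega
        have hs2 : val sb.2 = 1 := by omega
        have hsa : sa.2 = g := h.vl.uniq _ _ hs1 vg
        unfold Good at hG2
        have hX' : X = {b, wb, a, wa} := by
          rw [hX]; ext v; simp only [mem_insert, mem_singleton]; tauto
        refine end_disj h hE h4.swap gb ga h2.symm h5.symm h3.symm h6.symm hX' hB2 ho2 d1 d3
          b1 b2 b4 hsa ?_ ?_
        · rw [add_right_comm]; omega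
        · rw [add_right_comm]; omega
      · exact fin o2 fa eb ho2 b1 b3 c1 c3 hG
      · exact fin o2 fa fb ho2 b1 b3 d1 d3 hG
    · exact fin o2 ea eb ho2 a1 a3 c1 c3 hG
    · exact fin o2 fa eb ho2 b1 b3 c1 c3 hG
  · -- the first case
    unfold Good at hG1
    have hs1 : val ra.2 = -1 := by omega
    have hs2 : val rb.2 = -1 := by omega
    have hrb : rb.2 = psi g := uniq_neg h.vl vg hs2
    refine end_disj h hE h4.dual (by rw [h4.inv]; exact ga) gb h2 h3 h5 h6 hX hB2 ho1 a1 a3
      c1 c2 c4 hrb ?_ ?_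
    · rw [h4.inv]; omega
    · omega

/-- F1, hub -/
theorem case_hub (h : FC l psi part val s U K) (hE : EC l psi part val s U E) {g x y : Fin r}
    (h4 : Four psi K g x y) (hval : val = valF psi g) {a w b : V} {pa qa pb qb : Lb}
    (ga : Gad l psi part a w x g pa qa) (gb : Gad l psi part b w y (psi g) pb qb)
    (haE : a ∉ E) (hbE : b ∉ E)
    (hta : val (lam l part a (mx l a)) + val (lam l part a (md l a)) = 1)
    (htb : val (lam l part b (mx l b)) + val (lam l part b (md l b)) = -1)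
    (h2 : a ≠ b) (hlab : l w a ≠ l w b) : Out l psi part s := by
  have hKt := fun u t ht => tab_K h hE u t ht
  have vg : val g = 1 := by rw [hval]; exact valF_self g
  choose M hM using fun u => exists_max h hE u
  choose Mn hMn using fun u => exists_max h.neg hE.neg u
  obtain ⟨B, hB1, hB2⟩ := exists_B h
  set X : Finset V := {a, w, b} with hX
  have hXc : X.card ≤ 4 := by rw [hX]; exact card_le_three.trans (by norm_num)
  obtain ⟨o1, o2, ho1, hp, hv1, hv2⟩ := chain h hE M Mn hM hMn X hXc B hB1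
  have ho2 := achv_end ho1 hp
  have hsum : ∀ f : V → ℤ, ∑ v ∈ X, f v = f a + f b + f w := by
    intro f
    rw [hX, sum_insert (by simp [ga.ne, h2]), sum_pair gb.ne.symm]
    ring
  rw [hsum, mval_std haE (hMn a), mval_std hbE (hMn b), hta, htb] at hv1
  rw [hsum, mval_std haE (hM a), mval_std hbE (hM b), hta, htb] at hv2
  change Wv val o1 + _ ≤ -1 at hv1
  change 1 ≤ Wv val o2 + _ at hv2
  obtain ⟨a1, a2, a3, a4, a5, -⟩ := pick_rest (hMn w) (l w a)
  obtain ⟨b1, b2, b3, b4, b5, -⟩ := pick_rest (hM w) (l w b)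
  rw [a5] at hv1
  rw [b5] at hv2
  set ea := pick (l w a) (Mn w)
  set ra := rest (l w a) (Mn w)
  set fb := pick (l w b) (M w)
  set sb := rest (l w b) (M w)
  have l1 := h.vl.lo ra.2
  have l2 := h.vl.lo ea.2
  have l3 := h.vl.hi sb.2
  have l4 := h.vl.hi fb.2
  have hW : ∀ T : Fin r → ℤ, Wv val T = T g - T (psi g) := fun T => by
    rw [hval]; exact Wv_valF h4.ne T
  obtain ⟨c, hc, hcl⟩ := exists_entry h hE w (l w a)
  have fin : ∀ (o : Fin r → ℤ), Achv l psi part E X B o → Good g x y (psi g) o →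
      Out l psi part s := fun o ho hG =>
    both_hub h hE h4 ga gb h2 hlab hX hB2 ho hc hcl hG
  have hI : ∀ {o : Fin r → ℤ}, Achv l psi part E X B o → Inv K o := fun ho => achv_inv hKt ho
  by_cases hG1 : Good g x y (psi g) o1
  · exact fin o1 ho1 hG1
  rw [hW] at hv1 hv2
  have hp1 := h4.par (hI ho1)
  have hp2 := h4.par (hI ho2)
  by_cases hneg : o1 g - o1 (psi g) ≤ -1
  · rcases path_hit (P := fun o => o g - o (psi g) ≤ -1)
      (H := fun o => Good g x y (psi g) o) hp hneg
      (fun o o' hs h1 => step_good h4 hval (hI hs.1) hs.2.2 h1) with ⟨o, ho, hG⟩ | hP2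
    · exact fin o ho hG
    by_cases hG2 : Good g x y (psi g) o2
    · exact fin o2 ho2 hG2
    have hs1 : val fb.2 = 1 := by omega
    have hfb : fb.2 = g := h.vl.uniq _ _ hs1 vg
    unfold Good at hG2
    have hX' : X = {b, w, a} := by
      rw [hX]; ext v; simp only [mem_insert, mem_singleton]; tauto
    exact end_hub h hE h4.swap gb ga h2.symm hX' hB2 ho2 b1 b3 hfb (by omega) (by omega)
  · unfold Good at hG1
    have hs1 : val ea.2 = -1 := by omega
    have hea : ea.2 = psi g := uniq_neg h.vl vg hs1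
    exact end_hub h hE h4.dual (by rw [h4.inv]; exact ga) gb h2 hX hB2 ho1 a1 a3 hea
      (by rw [h4.inv]; omega) (by omega)

/-- the first alternative of FCase -/
theorem case_first (h : FC l psi part val s U K) (hE : EC l psi part val s U E) {g x y : Fin r}
    (h4 : Four psi K g x y) (hval : val = valF psi g)
    (hx : 2 / 5 * nn V ≤ ((ofT l part U {x, g}).card : ℝ))
    (hy : 2 / 5 * nn V ≤ ((ofT l part U {y, psi g}).card : ℝ)) : Out l psi part s := by
  have v1 : val g = 1 := by rw [hval]; exact valF_self g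
  have v2 : val (psi g) = -1 := by rw [hval]; exact valF_psi h4.ne
  have v3 : val x = 0 := by rw [hval]; exact valF_ne h4.xg h4.xpg
  have v4 : val y = 0 := by rw [hval]; exact valF_ne h4.swap.xg h4.swap.xpg
  choose W hW1 hW2 using exists_mn h.bdd
  -- the two classes
  have hbig : ∀ T : Finset (Fin r), 2 / 5 * nn V ≤ ((ofT l part U T).card : ℝ) →
      3 / 10 * nn V ≤ ((((ofT l part U T) \ E).card : ℕ) : ℝ) := by
    intro T hT
    have h1 := card_le_card_sdiff_add_card (s := ofT l part U T) (t := E)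
    have h2 : ((ofT l part U T).card : ℝ) ≤ ((ofT l part U T) \ E).card + E.card := by
      exact_mod_cast h1
    have h3 := hE.card
    have h5 := h.s1
    have h6 := h.large
    have h7 : 0 ≤ nn V := by unfold nn; positivity
    nlinarith
  have hn : (10 : ℝ) ^ 12 ≤ nn V := by
    have h5 := h.s1
    have h6 := h.large
    have h7 : 0 ≤ nn V := by unfold nn; positivity
    have : s * nn V ≤ 1 / 10 ^ 9 * nn V := mul_le_mul_of_nonneg_right h5 h7
    nlinarith
  have hXa := hbig _ hx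
  have hXb := hbig _ hy
  set Xa := (ofT l part U {x, g}) \ E with hXa'
  set Xb := (ofT l part U {y, psi g}) \ E with hXb'
  have h10 : ∀ S : Finset V, 3 / 10 * nn V ≤ (S.card : ℝ) → 10 ≤ S.card := by
    intro S hS
    have : (10 : ℝ) ≤ S.card := by linarith
    exact_mod_cast this
  have ma : ∀ v ∈ Xa, v ∉ E ∧ tp l part v = {x, g} := by
    intro v hv
    rw [hXa', mem_sdiff] at hv
    exact ⟨hv.2, (mem_filter.1 hv.1).2⟩
  have mb : ∀ v ∈ Xb, v ∉ E ∧ tp l part v = {y, psi g} := by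
    intro v hv
    rw [hXb', mem_sdiff] at hv
    exact ⟨hv.2, (mem_filter.1 hv.1).2⟩
  have hdisj : Disjoint Xa Xb := by
    rw [Finset.disjoint_left]
    intro v hva hvb
    have e1 := (ma v hva).2
    have e2 := (mb v hvb).2
    have e3 : x ∈ ({y, psi g} : Finset (Fin r)) := by rw [← e2, e1]; simp
    rw [mem_insert, mem_singleton] at e3
    rcases e3 with e3 | e3
    · exact h4.xy e3
    · exact h4.xpg e3
  have core : ∀ a ∈ Xa, ∀ b ∈ Xb, W a ≠ b → W b ≠ a → (W a ≠ W b ∨ l (W a) a ≠ l (W a) b) →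
      Out l psi part s := by
    intro a ha b hb hab hba hor
    obtain ⟨haE, hta⟩ := ma a ha
    obtain ⟨hbE, htb⟩ := mb b hb
    have hca := tp_cases h4.xg hta
    have hcb := tp_cases h4.swap.xpg htb
    obtain ⟨pa, qa, ga⟩ := exists_gad h hE haE (hW1 a) (hW2 a) hca
    obtain ⟨pb, qb, gb⟩ := exists_gad h hE hbE (hW1 b) (hW2 b) hcb
    have hva : val (lam l part a (mx l a)) + val (lam l part a (md l a)) = 1 := by
      rcases hca with ⟨e1, e2⟩ | ⟨e1, e2⟩ <;> rw [e1, e2, v1, v3] <;> rfl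
    have hvb : val (lam l part b (mx l b)) + val (lam l part b (md l b)) = -1 := by
      rcases hcb with ⟨e1, e2⟩ | ⟨e1, e2⟩ <;> rw [e1, e2, v2, v4] <;> rfl
    have hne : a ≠ b := by
      rintro rfl
      exact Finset.disjoint_left.1 hdisj ha hb
    by_cases hww : W a = W b
    · have hl := hor.resolve_left (fun h1 => h1 hww)
      rw [← hww] at gb
      exact case_hub h hE h4 hval ga gb haE hbE hva hvb hne hl
    · exact case_disj h hE h4 hval ga gb haE hbE hva hvb hne hba.symm hab hww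
  obtain ⟨i, j, hij, v0, hv0, v1', hv1', s1, s2, s3⟩ := selection h.bdd (k := 2) (by norm_num)
    ![Xa, Xb] (by
      intro i j hij
      fin_cases i <;> fin_cases j
      · exact absurd rfl hij
      · exact hdisj
      · exact hdisj.symm
      · exact absurd rfl hij)
    (by
      intro i
      fin_cases i
      · exact Or.inr (h10 _ hXa)
      · exact Or.inr (h10 _ hXb))
    (by
      refine ⟨0, 1, by decide, ?_, ?_⟩
      · intro h1
        have h2 := h10 _ hXa
        change Xa = ∅ at h1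
        rw [h1, card_empty] at h2
        omega
      · intro h1
        have h2 := h10 _ hXb
        change Xb = ∅ at h1
        rw [h1, card_empty] at h2
        omega)
    (by
      rw [Fin.sum_univ_two]
      change nn V / 2 + 20 ≤ (Xa.card : ℝ) + (Xb.card : ℝ)
      linarith) W hW1
  fin_cases i <;> fin_cases j
  · exact absurd rfl hij
  · exact core v0 hv0 v1' hv1' s1 s2 s3
  · refine core v1' hv1' v0 hv0 s2 s1 ?_
    rcases s3 with s3 | s3
    · exact Or.inl (Ne.symm s3)
    · by_cases e : W v0 = W v1'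
      · rw [e] at s3
        exact Or.inr (Ne.symm s3)
      · exact Or.inl (Ne.symm e)
  · exact absurd rfl hij

end Pool.H28BX
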