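import Pool.Agent.H28.BX.Gad

set_option autoImplicit false

/-! Case F: the subcases T and F2 (at most one self-dual class). -/

namespace Pool.H28BX

open Finset Pool.H90BX
open scoped Classical

variable {V : Type} [Fintype V] [DecidableEq V] {r : ℕ} {l : LS V} {psi : Fin r → Fin r}
  {part : V → Lb → Fin r} {val : Fin r → ℤ} {s : ℝ} {U E : Finset V} {K : Finset (Fin r)}

theorem exists_B (h : FC l psi part val s U K) : ∃ B : ℕ, 18 * s * nn V + 20 ≤ B ∧
    (B : ℝ) ≤ 18 * s * nn V + 21 := by
  have h1 := h.large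
  refine ⟨⌈18 * s * nn V + 20⌉₊, Nat.le_ceil _, ?_⟩
  have h2 := Nat.ceil_lt_add_one (a := 18 * s * nn V + 20) (by nlinarith)
  linarith

theorem Wv_valF {h : Fin r} (hh : psi h ≠ h) (T : Fin r → ℤ) :
    Wv (valF psi h) T = T h - T (psi h) := valF_sum T hh

theorem valF_self (h : Fin r) : valF psi h h = 1 := if_pos rfl

theorem valF_psi {h : Fin r} (hh : psi h ≠ h) : valF psi h (psi h) = -1 := by
  unfold valF; rw [if_neg hh, if_pos rfl]

theorem valF_ne {h A : Fin r} (h1 : A ≠ h) (h2 : A ≠ psi h) : valF psi h A = 0 := by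
  unfold valF; rw [if_neg h1, if_neg h2]

/-- subcase T: all tables contain only h and psi h -/
theorem case_T (h : FC l psi part val s U K) (hE : EC l psi part val s U E) {g : Fin r}
    (hg : psi g ≠ g) (hval : val = valF psi g)
    (hT : ∀ u, ∀ t ∈ Tab l psi part E u, t.2 = g ∨ t.2 = psi g) : Out l psi part s := by
  have hinv := h.vl.inv
  choose M hM using fun u => exists_max h hE u
  choose Mn hMn using fun u => exists_max h.neg hE.neg u
  obtain ⟨B, hB1, hB2⟩ := exists_B h
  obtain ⟨o1, o2, ho1, hp, hv1, hv2⟩ := chain h hE M Mn hM hMn ∅ (by simp) B hB1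
  rw [sum_empty, add_zero] at hv1 hv2
  change Wv val o1 ≤ -1 at hv1
  change 1 ≤ Wv val o2 at hv2
  have hK' : ∀ u, ∀ t ∈ Tab l psi part E u, t.2 ∈ ({g, psi g} : Finset (Fin r)) := by
    intro u t ht
    rw [mem_insert, mem_singleton]; exact hT u t ht
  obtain ⟨o, ho, hw⟩ : ∃ o, Achv l psi part E ∅ B o ∧ (Wv val o = 0 ∨ Wv val o = 1) := by
    rcases path_hit (P := fun o => Wv val o ≤ -1) (H := fun o => Wv val o = 0 ∨ Wv val o = 1)
      hp hv1 (fun o o' hs h1 => by
        have h2 := el_value h.vl hs.2.2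
        omega) with h1 | h1
    · exact h1
    · omega
  have hI := achv_inv hK' ho
  have hpar := inv_sum hI
  rw [sum_pair hg.symm] at hpar
  rw [hval, Wv_valF hg] at hw
  have h0 : o g = o (psi g) := by omega
  have hbal : Bal psi o := by
    refine bal_of (K := {g, psi g}) hinv hg ?_ hI.1 h0 ?_
    · intro A hA
      rw [mem_insert, mem_singleton] at hA ⊢
      rcases hA with rfl | rfl
      · exact Or.inr rfl
      · exact Or.inl (hinv _)
    · intro A hA
      rw [mem_insert, mem_singleton] at hA
      rcases hA with hA | hA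
      · exact Or.inl hA
      · exact Or.inr (Or.inl hA)
  obtain ⟨mate, t0, t1, g1, -, g3, g4⟩ := glue h hE ho id (fun _ => (0, g)) (fun _ => (0, g))
    (by simp) (by simp) (by simp) (by simp) (by simp) (by simp)
  rw [sum_empty, add_zero] at g3
  exact out_of_plan h hE (by simp) hB2 g1 g4 (g3 ▸ hbal)

/-- subcase F2: one self-dual class, gadget vertex v of type sa, t -/
theorem case_F2 (h : FC l psi part val s U K) (hE : EC l psi part val s U E) {g sa : Fin r}
    (hg : psi g ≠ g) (hval : val = valF psi g) (hsa : psi sa = sa) (hK : K = {g, psi g, sa})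
    {v w : V} (hv : v ∉ E) (hw : w ≠ v) (hlw : l v w = mn l v) {t : Fin r}
    (ht : t = g ∨ t = psi g)
    (htp : (lam l part v (mx l v) = sa ∧ lam l part v (md l v) = t) ∨
      (lam l part v (mx l v) = t ∧ lam l part v (md l v) = sa)) : Out l psi part s := by
  have hinv := h.vl.inv
  have d1 : sa ≠ g := by rintro rfl; exact hg hsa
  have d2 : sa ≠ psi g := by
    rintro rfl
    rw [hinv] at hsa
    exact hg hsa.symm
  have vs : val sa = 0 := by rw [hval]; exact valF_ne d1 d2
  choose M hM using fun u => exists_max h hE u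
  choose Mn hMn using fun u => exists_max h.neg hE.neg u
  obtain ⟨B, hB1, hB2⟩ := exists_B h
  obtain ⟨p, q, hgad⟩ := exists_gad h hE hv hw hlw htp
  have hvw : v ≠ w := hw.symm
  set X : Finset V := insert v (insert w ∅) with hX
  have hXc : X.card ≤ 4 := by
    rw [hX]
    exact (card_insert_le _ _).trans (by
      have := card_insert_le w (∅ : Finset V)
      rw [card_empty] at this
      omega)
  obtain ⟨o1, o2, ho1, hp, hv1, hv2⟩ := chain h hE M Mn hM hMn X hXc B hB1
  have ho2 := achv_end ho1 hp
  have hsum : ∀ f : V → ℤ, ∑ x ∈ X, f x = f v + f w := by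
    intro f
    rw [hX, sum_insert (by simp [hvw]), sum_insert (by simp), sum_empty, add_zero]
  rw [hsum] at hv1 hv2
  have hmv : ∀ {val' : Fin r → ℤ} {m : (Lb × Fin r) × (Lb × Fin r)},
      IsMax val' (Tab l psi part E v) m → mval val m = val t := by
    intro val' m hm
    rw [mval_std hv hm val]
    rcases htp with ⟨e1, e2⟩ | ⟨e1, e2⟩ <;> rw [e1, e2, vs] <;> ring
  rw [hmv (hMn v)] at hv1
  rw [hmv (hM v)] at hv2
  change Wv val o1 + _ ≤ -1 at hv1
  change 1 ≤ Wv val o2 + _ at hv2
  obtain ⟨a1, a2, a3, a4, a5, a6⟩ := pick_rest (hMn w) (l w v)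
  obtain ⟨b1, b2, b3, b4, b5, b6⟩ := pick_rest (hM w) (l w v)
  rw [a5] at hv1
  rw [b5] at hv2
  set c := pick (l w v) (Mn w)
  set d := pick (l w v) (M w)
  have hcd : val c.2 ≤ val d.2 := b6 c a1 a3
  have l1 := h.vl.lo (rest (l w v) (Mn w)).2
  have l2 := h.vl.hi (rest (l w v) (M w)).2
  have hKt := fun u t ht => tab_K h hE u t ht
  -- a hit gives the output
  have fin : ∀ (o : Fin r → ℤ) (c : Lb × Fin r), Achv l psi part E X B o →
      c ∈ Tab l psi part E w → c.1 ≠ l w v →
      (Wv val (o + ev c.2) = 0 ∨ Wv val (o + ev c.2) = - val t) → Out l psi part s := by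
    intro o c ho hc hcl hW
    obtain ⟨x, hxK, hWx, p', hpx, hpl⟩ : ∃ x ∈ K, Wv val (o + ev c.2 + ev x) = 0 ∧ ∃ p' : Lb,
        Act l psi part v p' x ∧ p' ≠ l v w := by
      rcases hW with hW | hW
      · refine ⟨sa, by rw [hK]; simp, ?_, p, hgad.ap, hgad.pl⟩
        rw [Wv_add, hW, Wv_ev, vs]; rfl
      · refine ⟨t, ?_, ?_, q, hgad.aq, hgad.ql⟩
        · rw [hK]; rcases ht with rfl | rfl <;> simp
        · rw [Wv_add, hW, Wv_ev]; ring
    obtain ⟨mate, t0, t1, g1, -, -, -, g3, g4⟩ := plan1 h hE hX hvw (by simp) (by simp) ho hpx hpl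
      (tab_act h hE w c hc) hcl M (by simp)
    rw [sum_empty, add_zero] at g3
    refine out_of_plan h hE hXc hB2 g1 g4 ?_
    rw [g3]
    have hI : Inv K (o + ev x + ev c.2) := by
      have := (achv_inv hKt ho).add (inv_two hxK (hKt w c hc))
      rwa [← add_assoc] at this
    have hpar := inv_sum hI
    have hW2 : Wv val (o + ev x + ev c.2) = 0 := by
      rw [← hWx, Wv_add, Wv_add, Wv_add, Wv_add]; ring
    rw [hval, Wv_valF hg] at hW2
    rw [hK, sum_insert (by simp [hg.symm, d1.symm]), sum_insert (by simp [d2.symm]),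
      sum_singleton] at hpar
    set T := o + ev x + ev c.2
    refine bal_of hinv hg h.kpsi hI.1 (by omega) ?_
    intro A hA
    rw [hK, mem_insert, mem_insert, mem_singleton] at hA
    rcases hA with hA | hA | hA
    · exact Or.inl hA
    · exact Or.inr (Or.inl hA)
    · refine Or.inr (Or.inr ⟨by rw [hA]; exact hsa, ?_⟩)
      rw [hA]
      omega
  have htv : val t = 1 ∨ val t = -1 := by
    rcases ht with rfl | rfl
    · left; rw [hval, valF_self]
    · right; rw [hval, valF_psi hg]
  by_cases hs1 : Wv val (o1 + ev c.2) = 0 ∨ Wv val (o1 + ev c.2) = - val t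
  · exact fin o1 c ho1 a1 a3 hs1
  have hP1 : Wv val (o1 + ev c.2) < 0 ∧ Wv val (o1 + ev c.2) < - val t := by
    rw [Wv_add, Wv_ev] at hs1 ⊢
    omega
  rcases path_hit (P := fun o => Wv val (o + ev c.2) < 0 ∧ Wv val (o + ev c.2) < - val t)
    (H := fun o => Wv val (o + ev c.2) = 0 ∨ Wv val (o + ev c.2) = - val t) hp hP1
    (fun o o' hs h1 => by
      have h2 := el_value h.vl (el_add (k := ev c.2) hs.2.2)
      omega) with ⟨o, ho, hW⟩ | hP2
  · exact fin o c ho a1 a3 hW
  by_cases hs2 : Wv val (o2 + ev d.2) = 0 ∨ Wv val (o2 + ev d.2) = - val t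
  · exact fin o2 d ho2 b1 b3 hs2
  exfalso
  have h2 := el_value (o := o2 + ev c.2) (o' := o2 + ev d.2) h.vl
    (el_exch (hKt w c a1) (hKt w d b1) hcd)
  simp only [Wv_add, Wv_ev] at hs2 hP2 h2
  omega

/-- the second alternative of FCase -/
theorem case_second (h : FC l psi part val s U K) (hE : EC l psi part val s U E) {g sa : Fin r}
    (hg : psi g ≠ g) (hval : val = valF psi g) (hsa : psi sa = sa ∨ sa = g)
    (hK : K = {g, psi g, sa}) : Out l psi part s := by
  have hinv := h.vl.inv
  have hKt := fun u t ht => tab_K h hE u t ht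
  rcases hsa with hsa | hsa
  swap
  · refine case_T h hE hg hval fun u t ht => ?_
    have h1 := hKt u t ht
    rw [hK, hsa] at h1
    simp only [mem_insert, mem_singleton] at h1
    tauto
  have d1 : sa ≠ g := by rintro rfl; exact hg hsa
  have d2 : sa ≠ psi g := by
    rintro rfl
    rw [hinv] at hsa
    exact hg hsa.symm
  by_cases hex : ∃ v, v ∉ E ∧ (lam l part v (mx l v) = sa ∨ lam l part v (md l v) = sa)
  · obtain ⟨v, hv, hor⟩ := hex
    obtain ⟨w, hw1, hw2⟩ := exists_mn h.bdd v
    have hU := hE.sub v hv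
    have hk := h.kin v hU
    have htwo := h.two v hU
    rw [hK] at hk
    simp only [mem_insert, mem_singleton] at hk
    rcases hor with hor | hor
    · refine case_F2 h hE hg hval hsa hK hv hw1 hw2 (t := lam l part v (md l v)) ?_
        (Or.inl ⟨hor, rfl⟩)
      rcases hk.2 with e | e | e
      · exact Or.inl e
      · exact Or.inr e
      · exact absurd (by rw [hor, e]) htwo
    · refine case_F2 h hE hg hval hsa hK hv hw1 hw2 (t := lam l part v (mx l v)) ?_
        (Or.inr ⟨rfl, hor⟩)
      rcases hk.1 with e | e | e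
      · exact Or.inl e
      · exact Or.inr e
      · exact absurd (by rw [hor, e]) htwo
  · push Not at hex
    have hout : ∀ v, v ∉ E → (lam l part v (mx l v) = g ∨ lam l part v (mx l v) = psi g) ∧
        (lam l part v (md l v) = g ∨ lam l part v (md l v) = psi g) := by
      intro v hv
      have hk := h.kin v (hE.sub v hv)
      have h1 := hex v hv
      rw [hK] at hk
      simp only [mem_insert, mem_singleton] at hk
      tauto
    refine case_T h hE hg hval fun u t ht => ?_
    by_cases hu : u ∈ E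
    · unfold Tab at ht
      rw [if_pos hu, mem_filter] at ht
      have hpos : (0 : ℝ) < nn V / 8000 := by
        have := h.large
        have h2 := h.s0
        have : 0 < nn V := by
          by_contra h3
          push Not at h3
          nlinarith
        positivity
      have hc := lt_of_lt_of_le hpos ht.2
      have hc2 : 0 < (univ.filter (fun w : V => w ∉ E ∧ w ≠ u ∧
        l u w = t.1 ∧ ∃ k, k ≠ l w u ∧ (k = mx l w ∨ k = md l w) ∧ part w k = psi t.2)).card := by
        exact_mod_cast hc
      obtain ⟨w, hw⟩ := card_pos.1 hc2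
      rw [mem_filter] at hw
      obtain ⟨-, hwE, -, -, k, -, hk, hkp⟩ := hw
      have h3 : psi t.2 = g ∨ psi t.2 = psi g := by
        rw [← hkp]
        rcases hk with rfl | rfl
        · rw [← lam_md l part w]; exact (hout w hwE).2
        · rw [← lam_mx l part w]; exact (hout w hwE).1
      rcases h3 with h3 | h3
      · right; rw [← h3, hinv]
      · left; rw [← hinv t.2, h3, hinv]
    · unfold Tab at ht
      rw [if_neg hu, mem_insert, mem_singleton] at ht
      rcases ht with rfl | rfl
      · exact (hout u hu).1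
      · exact (hout u hu).2

end Pool.H28BX
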